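import Pool.Agent.W326.DU.Stm

/-! # Project DU: exactness of the Salvetti type complex (`PropEX`) -/

set_option autoImplicit false

namespace Pool.Agent.W304.DU

open Pool.Agent.W326.DU

section
variable {V M : Type} [AddCommGroup M]

theorem mem_Im [Fintype V] (R : V → M →+ M) (S : Set V) (x : M) (hx : x ∈ Im R S) :
    ∃ y : V → M, (∀ w, w ∉ S → y w = 0) ∧ x = ∑ w, R w (y w) := by
  classical
  let A : AddSubgroup M :=
    { carrier := {x | ∃ y : V → M, (∀ w, w ∉ S → y w = 0) ∧ x = ∑ w, R w (y w)}
      zero_mem' := ⟨0, fun _ _ => rfl, by simp⟩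
      add_mem' := by
        rintro a b ⟨y, hy, rfl⟩ ⟨z, hz, rfl⟩
        refine ⟨y + z, fun w hw => by simp [hy w hw, hz w hw], ?_⟩
        simp [Finset.sum_add_distrib]
      neg_mem' := by
        rintro a ⟨y, hy, rfl⟩
        refine ⟨-y, fun w hw => by simp [hy w hw], ?_⟩
        simp }
  have h : Im R S ≤ A := by
    unfold Im
    refine iSup_le fun s => iSup_le fun hs => ?_
    rintro _ ⟨m, rfl⟩
    refine ⟨fun w => if w = s then m else 0, fun w hw => ?_, ?_⟩
    · exact if_neg (fun h : w = s => hw (by rw [h]; exact hs))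
    rw [Finset.sum_eq_single s]
    · simp
    · intro b _ hb; simp [hb]
    · intro h; exact absurd (Finset.mem_univ _) h
  exact h hx

theorem range_mem_Im (R : V → M →+ M) (S : Set V) (s : V) (hs : s ∈ S) (m : M) :
    R s m ∈ Im R S := by
  unfold Im
  exact (le_iSup₂_of_le s hs le_rfl : (R s).range ≤ _) ⟨m, rfl⟩

/-- `d d = 0` -/
theorem dd [Fintype V] {ad : V → V → Prop} (R : V → M →+ M) (hR : Reg ad R)
    (hirr : ∀ a, ¬ ad a a) (y : V → V → M) (h1 : ∀ a b, y a b = - y b a)
    (h2 : ∀ a b, ¬ ad a b → y a b = 0) : ∑ b, R b (∑ a, R a (y a b)) = 0 := by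
  classical
  simp only [map_sum]
  rw [← Finset.sum_product' (s := Finset.univ) (t := Finset.univ)
    (f := fun b a => R b (R a (y a b)))]
  refine Finset.sum_involution (fun p _ => (p.2, p.1)) ?_ ?_ ?_ ?_
  · rintro ⟨b, a⟩ _
    dsimp only
    by_cases h : ad a b
    · rw [h1 b a, map_neg, map_neg, hR.comm a b h, add_neg_cancel]
    · rw [h1 b a, h2 a b h]; simp
  · rintro ⟨b, a⟩ _ hne heq
    apply hne
    have : a = b := congrArg Prod.fst heq
    subst this
    dsimp only
    rw [h2 a a (hirr a)]; simp
  · intro p _; exact Finset.mem_univ _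
  · rintro ⟨a, b⟩ _; rfl

end

theorem th : PropEX := by
  classical
  intro V M _ _ ad R hsymm hirr hK4 hR S
  induction hn : S.card using Nat.strong_induction_on generalizing S with
  | _ n ih =>
  rcases S.eq_empty_or_nonempty with hS | ⟨v, hv⟩
  · subst hS
    refine ⟨?_, ?_, ?_⟩
    · intro x hx _
      refine ⟨0, ⟨fun a b => by simp, fun a b _ => rfl⟩, fun b => ?_⟩
      rw [hx b (by simp)]; simp
    · intro y hy _
      refine ⟨0, ⟨fun a b c => by simp, fun a b c => by simp, fun a b c _ => rfl⟩, fun b c => ?_⟩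
      rw [hy.2 b c (by simp)]; simp
    · intro z hz _ a b c
      exact hz.2.2 a b c (by simp)
  set S' := S.erase v with hS'
  set L := S'.filter (fun w => ad w v) with hL
  have hS'c : S'.card < n := by
    rw [← hn]; exact Finset.card_erase_lt_of_mem hv
  have hLc : L.card < n := lt_of_le_of_lt (Finset.card_filter_le _ _) hS'c
  obtain ⟨E1', E2', E3'⟩ := ih S'.card hS'c S' rfl
  obtain ⟨E1L, E2L, E3L⟩ := ih L.card hLc L rfl
  have hvS' : v ∉ S' := Finset.notMem_erase v S
  have hvL : v ∉ L := fun h => hvS' (Finset.mem_filter.1 h).1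
  have hLm : ∀ w, w ∈ L ↔ w ∈ S ∧ ad w v := by
    intro w
    rw [hL, Finset.mem_filter, hS', Finset.mem_erase]
    constructor
    · rintro ⟨⟨_, h2⟩, h3⟩; exact ⟨h2, h3⟩
    · rintro ⟨h2, h3⟩
      exact ⟨⟨fun h => hirr v (by rw [h] at h3; exact h3), h2⟩, h3⟩
  refine ⟨?_, ?_, ?_⟩
  · -- exactness in degree 1
    intro x hx hsum
    have h1 : R v (x v) ∈ Im R (S' : Set V) := by
      have h2 : R v (x v) = - ∑ u ∈ Finset.univ.erase v, R u (x u) := by
        rw [← Finset.add_sum_erase _ _ (Finset.mem_univ v)] at hsum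
        exact eq_neg_of_add_eq_zero_left hsum
      rw [h2]
      apply neg_mem
      apply sum_mem
      intro u hu
      by_cases huS : u ∈ S
      · exact range_mem_Im R _ u (Finset.mem_coe.2 (Finset.mem_erase.2
          ⟨(Finset.mem_erase.1 hu).1, huS⟩)) _
      · rw [hx u huS, map_zero]; exact zero_mem _
    have h2 := hR.star (S' : Set V) v (fun h => hvS' (Finset.mem_coe.1 h)) (x v) h1
    obtain ⟨y, hy, hyx⟩ := mem_Im R _ _ h2
    have hyL : ∀ w, w ∉ L → y w = 0 := by
      intro w hw
      apply hy
      rintro ⟨h3, h4⟩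
      exact hw (Finset.mem_filter.2 ⟨Finset.mem_coe.1 h3, h4⟩)
    let y' : V → V → M := fun a b => (if b = v then y a else 0) - (if a = v then y b else 0)
    have hy'1 : ∀ a b, y' a b = - y' b a := by
      intro a b; simp only [y']; abel
    have hy'2 : ∀ a b, ¬ (a ∈ S ∧ b ∈ S ∧ ad a b) → y' a b = 0 := by
      intro a b hab
      have e1 : (if b = v then y a else 0) = 0 := by
        split_ifs with h
        · subst h
          apply hyL
          rw [hLm]
          exact fun h3 => hab ⟨h3.1, hv, h3.2⟩
        · rfl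
      have e2 : (if a = v then y b else 0) = 0 := by
        split_ifs with h
        · subst h
          apply hyL
          rw [hLm]
          exact fun h3 => hab ⟨hv, h3.1, hsymm _ _ h3.2⟩
        · rfl
      simp only [y', e1, e2, sub_zero]
    have hd : ∀ b, ∑ a, R a (y' a b) = (if b = v then x v else 0) - R v (y b) := by
      intro b
      simp only [y', map_sub, Finset.sum_sub_distrib]
      congr 1
      · split_ifs with h
        · exact hyx.symm
        · simp
      · rw [Finset.sum_eq_single v]
        · simp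
        · intro a _ ha; simp [ha]
        · intro h; exact absurd (Finset.mem_univ _) h
    obtain ⟨w, hw, hwx⟩ := E1' (fun b => x b - ∑ a, R a (y' a b)) (by
      intro b hb
      rw [hd b]
      by_cases hbv : b = v
      · subst hbv; rw [hyL b hvL]; simp
      · have hbS : b ∉ S := fun h => hb (Finset.mem_erase.2 ⟨hbv, h⟩)
        have hbL : b ∉ L := fun h => hbS ((hLm b).1 h).1
        rw [hx b hbS, hyL b hbL]; simp [hbv]) (by
      simp only [map_sub, Finset.sum_sub_distrib]
      rw [hsum, dd R hR hirr y' hy'1 (fun a b hab => hy'2 a b (fun h => hab h.2.2)), sub_zero])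
    refine ⟨fun a b => y' a b + w a b, ⟨?_, ?_⟩, ?_⟩
    · intro a b
      dsimp only
      rw [hy'1 a b, hw.1 a b, neg_add]
    · intro a b hab
      dsimp only
      rw [hy'2 a b hab, hw.2 a b (fun h => hab
        ⟨Finset.mem_of_mem_erase (Finset.mem_coe.1 h.1),
          Finset.mem_of_mem_erase (Finset.mem_coe.1 h.2.1), h.2.2⟩), add_zero]
    · intro b
      simp only [map_add, Finset.sum_add_distrib]
      rw [← hwx b]
      abel
  · -- exactness in degree 2
    intro y hy hsum
    have hyvv : y v v = 0 := hy.2 v v (fun h => hirr v h.2.2)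
    obtain ⟨u, hu, huy⟩ := E1L (fun w => y w v) (by
      intro w hw
      apply hy.2
      rintro ⟨h1, h2, h3⟩
      exact hw ((hLm w).2 ⟨h1, h3⟩)) (hsum v)
    have huv : ∀ b, u b v = 0 := fun b => hu.2 b v (fun h => hvL h.2.1)
    let z : V → V → V → M := fun a b c => (if c = v then u a b else 0)
      - (if b = v then u a c else 0) + (if a = v then u b c else 0)
    have hz1 : ∀ a b c, z a b c = - z b a c := by
      intro a b c
      simp only [z]
      rw [show (if c = v then u a b else 0) = - (if c = v then u b a else 0) by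
        split_ifs
        · exact hu.1 a b
        · simp]
      abel
    have hz2 : ∀ a b c, z a b c = - z a c b := by
      intro a b c
      simp only [z]
      rw [show (if a = v then u b c else 0) = - (if a = v then u c b else 0) by
        split_ifs
        · exact hu.1 b c
        · simp]
      abel
    have hz3 : ∀ a b c, ¬ (a ∈ S ∧ b ∈ S ∧ c ∈ S ∧ ad a b ∧ ad b c ∧ ad a c) → z a b c = 0 := by
      intro a b c habc
      have e1 : (if c = v then u a b else 0) = 0 := by
        split_ifs with h
        · subst h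
          apply hu.2
          rintro ⟨h1, h2, h3⟩
          have h1' := (hLm a).1 h1
          have h2' := (hLm b).1 h2
          exact habc ⟨h1'.1, h2'.1, hv, h3, h2'.2, h1'.2⟩
        · rfl
      have e2 : (if b = v then u a c else 0) = 0 := by
        split_ifs with h
        · subst h
          apply hu.2
          rintro ⟨h1, h2, h3⟩
          have h1' := (hLm a).1 h1
          have h2' := (hLm c).1 h2
          exact habc ⟨h1'.1, hv, h2'.1, h1'.2, hsymm _ _ h2'.2, h3⟩
        · rfl
      have e3 : (if a = v then u b c else 0) = 0 := by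
        split_ifs with h
        · subst h
          apply hu.2
          rintro ⟨h1, h2, h3⟩
          have h1' := (hLm b).1 h1
          have h2' := (hLm c).1 h2
          exact habc ⟨hv, h1'.1, h2'.1, hsymm _ _ h1'.2, h3, hsymm _ _ h2'.2⟩
        · rfl
      simp only [z, e1, e2, e3]
      abel
    have hd : ∀ b c, ∑ a, R a (z a b c) = (if c = v then y b v else 0)
        - (if b = v then y c v else 0) + R v (u b c) := by
      intro b c
      simp only [z, map_add, map_sub, Finset.sum_add_distrib, Finset.sum_sub_distrib]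
      congr 1
      · congr 1
        · split_ifs with h
          · exact (huy b).symm
          · simp
        · split_ifs with h
          · exact (huy c).symm
          · simp
      · rw [Finset.sum_eq_single v]
        · simp
        · intro a _ ha; simp [ha]
        · intro h; exact absurd (Finset.mem_univ _) h
    have hzv : ∀ b, ∑ a, R a (z a b v) = y b v := by
      intro b
      rw [hd b v, if_pos rfl, huv b, map_zero, add_zero]
      by_cases hb : b = v
      · rw [if_pos hb, hyvv, sub_zero]
      · rw [if_neg hb, sub_zero]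
    let y'' : V → V → M := fun b c => y b c - ∑ a, R a (z a b c)
    have hy''1 : ∀ b c, y'' b c = - y'' c b := by
      intro b c
      simp only [y'']
      rw [hy.1 b c]
      have : ∑ a, R a (z a b c) = - ∑ a, R a (z a c b) := by
        rw [← Finset.sum_neg_distrib]
        apply Finset.sum_congr rfl
        intro a _
        rw [hz2 a b c, map_neg]
      rw [this]
      abel
    have hy''v : ∀ b, y'' b v = 0 := by
      intro b
      simp only [y'']
      rw [hzv b, sub_self]
    obtain ⟨z', hz', hz'y⟩ := E2' y'' (by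
      refine ⟨hy''1, ?_⟩
      intro b c hbc
      by_cases hcv : c = v
      · rw [hcv]; exact hy''v b
      by_cases hbv : b = v
      · rw [hy''1, hbv, hy''v c, neg_zero]
      have hbc' : ¬ (b ∈ S ∧ c ∈ S ∧ ad b c) := by
        rintro ⟨h1, h2, h3⟩
        exact hbc ⟨Finset.mem_coe.2 (Finset.mem_erase.2 ⟨hbv, h1⟩),
          Finset.mem_coe.2 (Finset.mem_erase.2 ⟨hcv, h2⟩), h3⟩
      simp only [y'']
      rw [hd b c, if_neg hcv, if_neg hbv, hy.2 b c hbc', hu.2 b c (by
        rintro ⟨h1, h2, h3⟩
        exact hbc' ⟨((hLm b).1 h1).1, ((hLm c).1 h2).1, h3⟩)]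
      simp) (by
      intro c
      simp only [y'', map_sub, Finset.sum_sub_distrib]
      rw [hsum c, dd R hR hirr (fun a b => z a b c) (fun a b => hz1 a b c)
        (fun a b hab => hz3 a b c (fun h => hab h.2.2.2.1)), sub_zero])
    refine ⟨fun a b c => z a b c + z' a b c, ⟨?_, ?_, ?_⟩, ?_⟩
    · intro a b c
      dsimp only
      rw [hz1 a b c, hz'.1 a b c]
      exact (neg_add _ _).symm
    · intro a b c
      dsimp only
      rw [hz2 a b c, hz'.2.1 a b c]
      exact (neg_add _ _).symm
    · intro a b c habc
      dsimp only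
      rw [hz3 a b c habc, hz'.2.2 a b c (fun h => habc
        ⟨Finset.mem_of_mem_erase (Finset.mem_coe.1 h.1),
          Finset.mem_of_mem_erase (Finset.mem_coe.1 h.2.1),
          Finset.mem_of_mem_erase (Finset.mem_coe.1 h.2.2.1), h.2.2.2⟩), add_zero]
    · intro b c
      simp only [map_add, Finset.sum_add_distrib]
      rw [← hz'y b c]
      simp only [y'']
      abel
  · -- injectivity in degree 3
    intro z hz hsum
    obtain ⟨z', hz', hz'z⟩ := E2L (fun a b => z a b v) (by
      refine ⟨fun a b => hz.1 a b v, ?_⟩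
      intro a b hab
      apply hz.2.2
      rintro ⟨h1, h2, h3, h4, h5, h6⟩
      exact hab ⟨Finset.mem_coe.2 ((hLm a).2 ⟨h1, h6⟩), Finset.mem_coe.2 ((hLm b).2 ⟨h2, h5⟩),
        h4⟩) (fun b => hsum b v)
    have hz'0 : ∀ a b c, z' a b c = 0 := by
      intro a b c
      apply hz'.2.2
      rintro ⟨h1, h2, h3, h4, h5, h6⟩
      have h1' := ((hLm a).1 (Finset.mem_coe.1 h1)).2
      have h2' := ((hLm b).1 (Finset.mem_coe.1 h2)).2
      have h3' := ((hLm c).1 (Finset.mem_coe.1 h3)).2
      exact hK4 a b c v h4 h6 h1' h5 h2' h3'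
    have hzv : ∀ a b, z a b v = 0 := by
      intro a b
      have := hz'z a b
      simpa [hz'0] using this
    apply E3' z
    · refine ⟨hz.1, hz.2.1, ?_⟩
      intro a b c habc
      by_cases hc : c = v
      · rw [hc]; exact hzv a b
      by_cases hb : b = v
      · rw [hz.2.1 a b c, hb, hzv a c, neg_zero]
      by_cases ha : a = v
      · rw [hz.1 a b c, hz.2.1 b a c, ha, hzv b c, neg_zero, neg_zero]
      apply hz.2.2
      rintro ⟨h1, h2, h3, h4⟩
      exact habc ⟨Finset.mem_coe.2 (Finset.mem_erase.2 ⟨ha, h1⟩),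
        Finset.mem_coe.2 (Finset.mem_erase.2 ⟨hb, h2⟩),
        Finset.mem_coe.2 (Finset.mem_erase.2 ⟨hc, h3⟩), h4⟩
    · exact hsum

end Pool.Agent.W304.DU
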