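import Pool.Agent.W326.DU.Stm

/-! # Project DU: first cohomology of the Moebius band (`PropP3`) -/

set_option autoImplicit false

namespace Pool.Agent.W304.DU.P3

open Pool.Agent.W326.DU

theorem eL_inj : ∀ i j : Fin 26, eL j = ((eL i).1, (eL i).2) → j = i := by decide

theorem eL_swap : ∀ i j : Fin 26, eL j ≠ ((eL i).2, (eL i).1) := by decide

theorem alt2_eL {M : Type} [AddCommGroup M] (n : Fin 26 → M) (i : Fin 26) :
    alt2 n (eL i).1 (eL i).2 = n i := by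
  unfold alt2 sg2
  rw [Finset.sum_eq_single i]
  · rw [if_pos rfl, if_neg (eL_swap i i), sub_zero, one_smul]
  · intro j _ hj
    rw [if_neg (fun h => hj (eL_inj i j h)), if_neg (eL_swap i j), sub_zero, zero_smul]
  · intro h; exact absurd (Finset.mem_univ _) h

theorem alt2_of {M : Type} [AddCommGroup M] (n : Fin 26 → M) (i : Fin 26) (a b : Fin 10)
    (h : eL i = (a, b)) : alt2 n a b = n i := by
  have := alt2_eL n i
  rwa [h] at this

theorem th : PropP3 := by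
  intro M _ n h
  have h0 : n 7 - n 4 + n 0 = 0 := by
    have := h 0
    rwa [alt2_of n 7 (tL 0).2.1 (tL 0).2.2 (by decide),
      alt2_of n 4 (tL 0).1 (tL 0).2.2 (by decide),
      alt2_of n 0 (tL 0).1 (tL 0).2.1 (by decide)] at this
  have h1 : n 14 - n 2 + n 1 = 0 := by
    have := h 1
    rwa [alt2_of n 14 (tL 1).2.1 (tL 1).2.2 (by decide),
      alt2_of n 2 (tL 1).1 (tL 1).2.2 (by decide),
      alt2_of n 1 (tL 1).1 (tL 1).2.1 (by decide)] at this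
  have h2 : n 20 - n 3 + n 2 = 0 := by
    have := h 2
    rwa [alt2_of n 20 (tL 2).2.1 (tL 2).2.2 (by decide),
      alt2_of n 3 (tL 2).1 (tL 2).2.2 (by decide),
      alt2_of n 2 (tL 2).1 (tL 2).2.1 (by decide)] at this
  have h3 : n 23 - n 4 + n 3 = 0 := by
    have := h 3
    rwa [alt2_of n 23 (tL 3).2.1 (tL 3).2.2 (by decide),
      alt2_of n 4 (tL 3).1 (tL 3).2.2 (by decide),
      alt2_of n 3 (tL 3).1 (tL 3).2.1 (by decide)] at this
  have h4 : n 12 - n 8 + n 5 = 0 := by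
    have := h 4
    rwa [alt2_of n 12 (tL 4).2.1 (tL 4).2.2 (by decide),
      alt2_of n 8 (tL 4).1 (tL 4).2.2 (by decide),
      alt2_of n 5 (tL 4).1 (tL 4).2.1 (by decide)] at this
  have h5 : n 18 - n 7 + n 6 = 0 := by
    have := h 5
    rwa [alt2_of n 18 (tL 5).2.1 (tL 5).2.2 (by decide),
      alt2_of n 7 (tL 5).1 (tL 5).2.2 (by decide),
      alt2_of n 6 (tL 5).1 (tL 5).2.1 (by decide)] at this
  have h6 : n 19 - n 8 + n 6 = 0 := by
    have := h 6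
    rwa [alt2_of n 19 (tL 6).2.1 (tL 6).2.2 (by decide),
      alt2_of n 8 (tL 6).1 (tL 6).2.2 (by decide),
      alt2_of n 6 (tL 6).1 (tL 6).2.1 (by decide)] at this
  have h7 : n 15 - n 11 + n 9 = 0 := by
    have := h 7
    rwa [alt2_of n 15 (tL 7).2.1 (tL 7).2.2 (by decide),
      alt2_of n 11 (tL 7).1 (tL 7).2.2 (by decide),
      alt2_of n 9 (tL 7).1 (tL 7).2.1 (by decide)] at this
  have h8 : n 22 - n 11 + n 10 = 0 := by
    have := h 8
    rwa [alt2_of n 22 (tL 8).2.1 (tL 8).2.2 (by decide),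
      alt2_of n 11 (tL 8).1 (tL 8).2.2 (by decide),
      alt2_of n 10 (tL 8).1 (tL 8).2.1 (by decide)] at this
  have h9 : n 24 - n 12 + n 10 = 0 := by
    have := h 9
    rwa [alt2_of n 24 (tL 9).2.1 (tL 9).2.2 (by decide),
      alt2_of n 12 (tL 9).1 (tL 9).2.2 (by decide),
      alt2_of n 10 (tL 9).1 (tL 9).2.1 (by decide)] at this
  have h10 : n 16 - n 14 + n 13 = 0 := by
    have := h 10
    rwa [alt2_of n 16 (tL 10).2.1 (tL 10).2.2 (by decide),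
      alt2_of n 14 (tL 10).1 (tL 10).2.2 (by decide),
      alt2_of n 13 (tL 10).1 (tL 10).2.1 (by decide)] at this
  have h11 : n 17 - n 15 + n 13 = 0 := by
    have := h 11
    rwa [alt2_of n 17 (tL 11).2.1 (tL 11).2.2 (by decide),
      alt2_of n 15 (tL 11).1 (tL 11).2.2 (by decide),
      alt2_of n 13 (tL 11).1 (tL 11).2.1 (by decide)] at this
  have h12 : n 21 - n 19 + n 16 = 0 := by
    have := h 12
    rwa [alt2_of n 21 (tL 12).2.1 (tL 12).2.2 (by decide),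
      alt2_of n 19 (tL 12).1 (tL 12).2.2 (by decide),
      alt2_of n 16 (tL 12).1 (tL 12).2.1 (by decide)] at this
  have h13 : n 25 - n 18 + n 17 = 0 := by
    have := h 13
    rwa [alt2_of n 25 (tL 13).2.1 (tL 13).2.2 (by decide),
      alt2_of n 18 (tL 13).1 (tL 13).2.2 (by decide),
      alt2_of n 17 (tL 13).1 (tL 13).2.1 (by decide)] at this
  have h14 : n 24 - n 21 + n 20 = 0 := by
    have := h 14
    rwa [alt2_of n 24 (tL 14).2.1 (tL 14).2.2 (by decide),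
      alt2_of n 21 (tL 14).1 (tL 14).2.2 (by decide),
      alt2_of n 20 (tL 14).1 (tL 14).2.1 (by decide)] at this
  have h15 : n 25 - n 23 + n 22 = 0 := by
    have := h 15
    rwa [alt2_of n 25 (tL 15).2.1 (tL 15).2.2 (by decide),
      alt2_of n 23 (tL 15).1 (tL 15).2.2 (by decide),
      alt2_of n 22 (tL 15).1 (tL 15).2.1 (by decide)] at this
  have key : ∀ a b : M, a - b = 0 → a = b := fun a b h => sub_eq_zero.1 h
  refine ⟨![0, n 0, n 3 - n 10, n 0 + n 1 - n 3 + n 5 + n 10, n 0 + n 6, n 0 + n 2 - n 3 + n 5 + n 10, n 3, n 0 + n 1 - n 3 + n 5 + n 10 + n 15, n 4, n 0 + n 8], n 0 - n 3 + n 5 + n 10, ?_⟩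
  intro i
  apply key
  fin_cases i
  · show n 0 - ((0 : ℤ) • (n 0 - n 3 + n 5 + n 10) + ((n 0) - (0))) = 0
    rw [zero_smul]
    have e : n 0 - (0 + ((n 0) - (0))) =
        0 := by abel
    rw [e]
  · show n 1 - ((-1 : ℤ) • (n 0 - n 3 + n 5 + n 10) + ((n 0 + n 1 - n 3 + n 5 + n 10) - (0))) = 0
    rw [neg_smul, one_smul]
    have e : n 1 - (-(n 0 - n 3 + n 5 + n 10) + ((n 0 + n 1 - n 3 + n 5 + n 10) - (0))) =
        0 := by abel
    rw [e]
  · show n 2 - ((-1 : ℤ) • (n 0 - n 3 + n 5 + n 10) + ((n 0 + n 2 - n 3 + n 5 + n 10) - (0))) = 0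
    rw [neg_smul, one_smul]
    have e : n 2 - (-(n 0 - n 3 + n 5 + n 10) + ((n 0 + n 2 - n 3 + n 5 + n 10) - (0))) =
        0 := by abel
    rw [e]
  · show n 3 - ((0 : ℤ) • (n 0 - n 3 + n 5 + n 10) + ((n 3) - (0))) = 0
    rw [zero_smul]
    have e : n 3 - (0 + ((n 3) - (0))) =
        0 := by abel
    rw [e]
  · show n 4 - ((0 : ℤ) • (n 0 - n 3 + n 5 + n 10) + ((n 4) - (0))) = 0
    rw [zero_smul]
    have e : n 4 - (0 + ((n 4) - (0))) =
        0 := by abel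
    rw [e]
  · show n 5 - ((1 : ℤ) • (n 0 - n 3 + n 5 + n 10) + ((n 3 - n 10) - (n 0))) = 0
    rw [one_smul]
    have e : n 5 - ((n 0 - n 3 + n 5 + n 10) + ((n 3 - n 10) - (n 0))) =
        0 := by abel
    rw [e]
  · show n 6 - ((0 : ℤ) • (n 0 - n 3 + n 5 + n 10) + ((n 0 + n 6) - (n 0))) = 0
    rw [zero_smul]
    have e : n 6 - (0 + ((n 0 + n 6) - (n 0))) =
        0 := by abel
    rw [e]
  · show n 7 - ((0 : ℤ) • (n 0 - n 3 + n 5 + n 10) + ((n 4) - (n 0))) = 0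
    rw [zero_smul]
    have e : n 7 - (0 + ((n 4) - (n 0))) =
        0 + (n 7 - n 4 + n 0) := by abel
    rw [e]
    simp only [h0, add_zero, sub_zero]
  · show n 8 - ((0 : ℤ) • (n 0 - n 3 + n 5 + n 10) + ((n 0 + n 8) - (n 0))) = 0
    rw [zero_smul]
    have e : n 8 - (0 + ((n 0 + n 8) - (n 0))) =
        0 := by abel
    rw [e]
  · show n 9 - ((0 : ℤ) • (n 0 - n 3 + n 5 + n 10) + ((n 0 + n 1 - n 3 + n 5 + n 10) - (n 3 - n 10))) = 0
    rw [zero_smul]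
    have e : n 9 - (0 + ((n 0 + n 1 - n 3 + n 5 + n 10) - (n 3 - n 10))) =
        0 - (n 7 - n 4 + n 0) - (n 14 - n 2 + n 1) - (n 20 - n 3 + n 2) + (n 23 - n 4 + n 3) - (n 12 - n 8 + n 5) - (n 18 - n 7 + n 6) + (n 19 - n 8 + n 6) + (n 15 - n 11 + n 9) - (n 22 - n 11 + n 10) - (n 24 - n 12 + n 10) - (n 16 - n 14 + n 13) + (n 17 - n 15 + n 13) + (n 21 - n 19 + n 16) - (n 25 - n 18 + n 17) + (n 24 - n 21 + n 20) + (n 25 - n 23 + n 22) := by abel
    rw [e]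
    simp only [h0, h1, h2, h3, h4, h5, h6, h7, h8, h9, h10, h11, h12, h13, h14, h15, add_zero, sub_zero]
  · show n 10 - ((0 : ℤ) • (n 0 - n 3 + n 5 + n 10) + ((n 3) - (n 3 - n 10))) = 0
    rw [zero_smul]
    have e : n 10 - (0 + ((n 3) - (n 3 - n 10))) =
        0 := by abel
    rw [e]
  · show n 11 - ((0 : ℤ) • (n 0 - n 3 + n 5 + n 10) + ((n 0 + n 1 - n 3 + n 5 + n 10 + n 15) - (n 3 - n 10))) = 0
    rw [zero_smul]
    have e : n 11 - (0 + ((n 0 + n 1 - n 3 + n 5 + n 10 + n 15) - (n 3 - n 10))) =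
        0 - (n 7 - n 4 + n 0) - (n 14 - n 2 + n 1) - (n 20 - n 3 + n 2) + (n 23 - n 4 + n 3) - (n 12 - n 8 + n 5) - (n 18 - n 7 + n 6) + (n 19 - n 8 + n 6) - (n 22 - n 11 + n 10) - (n 24 - n 12 + n 10) - (n 16 - n 14 + n 13) + (n 17 - n 15 + n 13) + (n 21 - n 19 + n 16) - (n 25 - n 18 + n 17) + (n 24 - n 21 + n 20) + (n 25 - n 23 + n 22) := by abel
    rw [e]
    simp only [h0, h1, h2, h3, h4, h5, h6, h8, h9, h10, h11, h12, h13, h14, h15, add_zero, sub_zero]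
  · show n 12 - ((-1 : ℤ) • (n 0 - n 3 + n 5 + n 10) + ((n 0 + n 8) - (n 3 - n 10))) = 0
    rw [neg_smul, one_smul]
    have e : n 12 - (-(n 0 - n 3 + n 5 + n 10) + ((n 0 + n 8) - (n 3 - n 10))) =
        0 + (n 12 - n 8 + n 5) := by abel
    rw [e]
    simp only [h4, add_zero, sub_zero]
  · show n 13 - ((0 : ℤ) • (n 0 - n 3 + n 5 + n 10) + ((n 0 + n 6) - (n 0 + n 1 - n 3 + n 5 + n 10))) = 0
    rw [zero_smul]
    have e : n 13 - (0 + ((n 0 + n 6) - (n 0 + n 1 - n 3 + n 5 + n 10))) =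
        0 + (n 14 - n 2 + n 1) + (n 20 - n 3 + n 2) + (n 12 - n 8 + n 5) - (n 19 - n 8 + n 6) + (n 24 - n 12 + n 10) + (n 16 - n 14 + n 13) - (n 21 - n 19 + n 16) - (n 24 - n 21 + n 20) := by abel
    rw [e]
    simp only [h1, h2, h4, h6, h9, h10, h12, h14, add_zero, sub_zero]
  · show n 14 - ((0 : ℤ) • (n 0 - n 3 + n 5 + n 10) + ((n 0 + n 2 - n 3 + n 5 + n 10) - (n 0 + n 1 - n 3 + n 5 + n 10))) = 0
    rw [zero_smul]
    have e : n 14 - (0 + ((n 0 + n 2 - n 3 + n 5 + n 10) - (n 0 + n 1 - n 3 + n 5 + n 10))) =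
        0 + (n 14 - n 2 + n 1) := by abel
    rw [e]
    simp only [h1, add_zero, sub_zero]
  · show n 15 - ((0 : ℤ) • (n 0 - n 3 + n 5 + n 10) + ((n 0 + n 1 - n 3 + n 5 + n 10 + n 15) - (n 0 + n 1 - n 3 + n 5 + n 10))) = 0
    rw [zero_smul]
    have e : n 15 - (0 + ((n 0 + n 1 - n 3 + n 5 + n 10 + n 15) - (n 0 + n 1 - n 3 + n 5 + n 10))) =
        0 := by abel
    rw [e]
  · show n 16 - ((0 : ℤ) • (n 0 - n 3 + n 5 + n 10) + ((n 0 + n 2 - n 3 + n 5 + n 10) - (n 0 + n 6))) = 0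
    rw [zero_smul]
    have e : n 16 - (0 + ((n 0 + n 2 - n 3 + n 5 + n 10) - (n 0 + n 6))) =
        0 - (n 20 - n 3 + n 2) - (n 12 - n 8 + n 5) + (n 19 - n 8 + n 6) - (n 24 - n 12 + n 10) + (n 21 - n 19 + n 16) + (n 24 - n 21 + n 20) := by abel
    rw [e]
    simp only [h2, h4, h6, h9, h12, h14, add_zero, sub_zero]
  · show n 17 - ((0 : ℤ) • (n 0 - n 3 + n 5 + n 10) + ((n 0 + n 1 - n 3 + n 5 + n 10 + n 15) - (n 0 + n 6))) = 0
    rw [zero_smul]
    have e : n 17 - (0 + ((n 0 + n 1 - n 3 + n 5 + n 10 + n 15) - (n 0 + n 6))) =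
        0 - (n 14 - n 2 + n 1) - (n 20 - n 3 + n 2) - (n 12 - n 8 + n 5) + (n 19 - n 8 + n 6) - (n 24 - n 12 + n 10) - (n 16 - n 14 + n 13) + (n 17 - n 15 + n 13) + (n 21 - n 19 + n 16) + (n 24 - n 21 + n 20) := by abel
    rw [e]
    simp only [h1, h2, h4, h6, h9, h10, h11, h12, h14, add_zero, sub_zero]
  · show n 18 - ((0 : ℤ) • (n 0 - n 3 + n 5 + n 10) + ((n 4) - (n 0 + n 6))) = 0
    rw [zero_smul]
    have e : n 18 - (0 + ((n 4) - (n 0 + n 6))) =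
        0 + (n 7 - n 4 + n 0) + (n 18 - n 7 + n 6) := by abel
    rw [e]
    simp only [h0, h5, add_zero, sub_zero]
  · show n 19 - ((0 : ℤ) • (n 0 - n 3 + n 5 + n 10) + ((n 0 + n 8) - (n 0 + n 6))) = 0
    rw [zero_smul]
    have e : n 19 - (0 + ((n 0 + n 8) - (n 0 + n 6))) =
        0 + (n 19 - n 8 + n 6) := by abel
    rw [e]
    simp only [h6, add_zero, sub_zero]
  · show n 20 - ((1 : ℤ) • (n 0 - n 3 + n 5 + n 10) + ((n 3) - (n 0 + n 2 - n 3 + n 5 + n 10))) = 0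
    rw [one_smul]
    have e : n 20 - ((n 0 - n 3 + n 5 + n 10) + ((n 3) - (n 0 + n 2 - n 3 + n 5 + n 10))) =
        0 + (n 20 - n 3 + n 2) := by abel
    rw [e]
    simp only [h2, add_zero, sub_zero]
  · show n 21 - ((0 : ℤ) • (n 0 - n 3 + n 5 + n 10) + ((n 0 + n 8) - (n 0 + n 2 - n 3 + n 5 + n 10))) = 0
    rw [zero_smul]
    have e : n 21 - (0 + ((n 0 + n 8) - (n 0 + n 2 - n 3 + n 5 + n 10))) =
        0 + (n 20 - n 3 + n 2) + (n 12 - n 8 + n 5) + (n 24 - n 12 + n 10) - (n 24 - n 21 + n 20) := by abel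
    rw [e]
    simp only [h2, h4, h9, h14, add_zero, sub_zero]
  · show n 22 - ((0 : ℤ) • (n 0 - n 3 + n 5 + n 10) + ((n 0 + n 1 - n 3 + n 5 + n 10 + n 15) - (n 3))) = 0
    rw [zero_smul]
    have e : n 22 - (0 + ((n 0 + n 1 - n 3 + n 5 + n 10 + n 15) - (n 3))) =
        0 - (n 7 - n 4 + n 0) - (n 14 - n 2 + n 1) - (n 20 - n 3 + n 2) + (n 23 - n 4 + n 3) - (n 12 - n 8 + n 5) - (n 18 - n 7 + n 6) + (n 19 - n 8 + n 6) - (n 24 - n 12 + n 10) - (n 16 - n 14 + n 13) + (n 17 - n 15 + n 13) + (n 21 - n 19 + n 16) - (n 25 - n 18 + n 17) + (n 24 - n 21 + n 20) + (n 25 - n 23 + n 22) := by abel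
    rw [e]
    simp only [h0, h1, h2, h3, h4, h5, h6, h9, h10, h11, h12, h13, h14, h15, add_zero, sub_zero]
  · show n 23 - ((0 : ℤ) • (n 0 - n 3 + n 5 + n 10) + ((n 4) - (n 3))) = 0
    rw [zero_smul]
    have e : n 23 - (0 + ((n 4) - (n 3))) =
        0 + (n 23 - n 4 + n 3) := by abel
    rw [e]
    simp only [h3, add_zero, sub_zero]
  · show n 24 - ((-1 : ℤ) • (n 0 - n 3 + n 5 + n 10) + ((n 0 + n 8) - (n 3))) = 0
    rw [neg_smul, one_smul]
    have e : n 24 - (-(n 0 - n 3 + n 5 + n 10) + ((n 0 + n 8) - (n 3))) =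
        0 + (n 12 - n 8 + n 5) + (n 24 - n 12 + n 10) := by abel
    rw [e]
    simp only [h4, h9, add_zero, sub_zero]
  · show n 25 - ((0 : ℤ) • (n 0 - n 3 + n 5 + n 10) + ((n 4) - (n 0 + n 1 - n 3 + n 5 + n 10 + n 15))) = 0
    rw [zero_smul]
    have e : n 25 - (0 + ((n 4) - (n 0 + n 1 - n 3 + n 5 + n 10 + n 15))) =
        0 + (n 7 - n 4 + n 0) + (n 14 - n 2 + n 1) + (n 20 - n 3 + n 2) + (n 12 - n 8 + n 5) + (n 18 - n 7 + n 6) - (n 19 - n 8 + n 6) + (n 24 - n 12 + n 10) + (n 16 - n 14 + n 13) - (n 17 - n 15 + n 13) - (n 21 - n 19 + n 16) + (n 25 - n 18 + n 17) - (n 24 - n 21 + n 20) := by abel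
    rw [e]
    simp only [h0, h1, h2, h4, h5, h6, h9, h10, h11, h12, h13, h14, add_zero, sub_zero]

end Pool.Agent.W304.DU.P3
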