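import Pool.Agent.W326.DU.Stm

/-! # Project DU: the crossed homomorphism argument in a RAAG (`PropRG`) -/

set_option autoImplicit false

namespace Pool.Agent.W304.DU.RG

open Pool.Agent.W326.DU

theorem gen_comm {W : Type} (ad : W → W → Prop) (a b : W) (h : ad a b) :
    gen ad a * gen ad b = gen ad b * gen ad a := by
  have h1 : PresentedGroup.mk (rels ad) (FreeGroup.of a * FreeGroup.of b * (FreeGroup.of a)⁻¹ *
      (FreeGroup.of b)⁻¹) = 1 := by
    apply (QuotientGroup.eq_one_iff _).2
    exact Subgroup.subset_normalClosure ⟨a, b, h, rfl⟩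
  rw [map_mul, map_mul, map_mul, map_inv, map_inv] at h1
  have h2 : gen ad a * gen ad b * (gen ad a)⁻¹ * (gen ad b)⁻¹ = 1 := h1
  rw [mul_inv_eq_one, mul_inv_eq_iff_eq_mul] at h2
  exact h2

section
variable {R : Type} [CommRing R] {G : Type} [Group G] {Q : Type} [AddCommGroup Q]
  [Module (MonoidAlgebra R G) Q]

theorem of_smul_of_smul (g h : G) (x : Q) :
    MonoidAlgebra.of R G g • (MonoidAlgebra.of R G h • x) = MonoidAlgebra.of R G (g * h) • x := by
  rw [smul_smul, ← map_mul]

variable (R Q) in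
/-- the action of the group on `Q` -/
noncomputable def A (g : G) : Equiv.Perm Q where
  toFun x := MonoidAlgebra.of R G g • x
  invFun x := MonoidAlgebra.of R G g⁻¹ • x
  left_inv x := by
    dsimp only
    rw [of_smul_of_smul, inv_mul_cancel, map_one, one_smul]
  right_inv x := by
    dsimp only
    rw [of_smul_of_smul, mul_inv_cancel, map_one, one_smul]

/-- If `Ψ : G → Perm Q` is a homomorphism with `Ψ g x = g x + Ψ g 0` on generators, then it holds
for all `g`. -/
theorem affine (Ψ : G →* Equiv.Perm Q) (X : Set G) (hX : Subgroup.closure X = ⊤)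
    (h : ∀ g ∈ X, ∀ x, Ψ g x = MonoidAlgebra.of R G g • x + Ψ g 0) (g : G) :
    ∀ x, Ψ g x = MonoidAlgebra.of R G g • x + Ψ g 0 := by
  have hg : g ∈ Subgroup.closure X := by rw [hX]; trivial
  induction hg using Subgroup.closure_induction with
  | mem g hg => exact h g hg
  | one =>
    intro x
    rw [map_one Ψ, map_one (MonoidAlgebra.of R G), one_smul, Equiv.Perm.one_apply,
      Equiv.Perm.one_apply, add_zero]
  | mul a b _ _ ha hb =>
    intro x
    rw [map_mul, Equiv.Perm.mul_apply, Equiv.Perm.mul_apply, hb x, ha (_ + _), ha (Ψ b 0),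
      smul_add, of_smul_of_smul, add_assoc]
  | inv a _ ha =>
    have key : ∀ x, Ψ a⁻¹ x = MonoidAlgebra.of R G a⁻¹ • (x - Ψ a 0) := by
      intro x
      rw [map_inv, Equiv.Perm.inv_eq_iff_eq, ha, of_smul_of_smul, mul_inv_cancel, map_one, one_smul,
        sub_add_cancel]
    intro x
    rw [key x, key 0, ← smul_add, zero_sub, sub_eq_add_neg]

/-- the additive extension of a crossed homomorphism -/
noncomputable def D (δ : G → Q) : MonoidAlgebra R G →+ Q :=
  (Finsupp.liftAddHom (fun g : G =>
    (({ toFun := fun r => (MonoidAlgebra.single 1 r : MonoidAlgebra R G) • δ g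
        map_zero' := by simp
        map_add' := fun a b => by rw [MonoidAlgebra.single_add, add_smul] } : R →+ Q)))).comp
    MonoidAlgebra.coeffAddEquiv.toAddMonoidHom

theorem D_single (δ : G → Q) (g : G) (r : R) :
    D δ (MonoidAlgebra.single g r) = (MonoidAlgebra.single 1 r : MonoidAlgebra R G) • δ g := by
  simp [D]

theorem D_mul_sub (δ : G → Q) (hδ : ∀ g h, δ (g * h) = δ g + MonoidAlgebra.of R G g • δ h)
    (y : MonoidAlgebra R G) (h : G) :
    D δ (y * (MonoidAlgebra.of R G h - 1)) = y • δ h := by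
  have key : ∀ y : MonoidAlgebra R G, D δ (y * MonoidAlgebra.of R G h) = D δ y + y • δ h := by
    intro y
    let f : MonoidAlgebra R G →+ Q := (D δ).comp (AddMonoidHom.mulRight (MonoidAlgebra.of R G h))
    let f' : MonoidAlgebra R G →+ Q := D δ + (AddMonoidHom.flip (smulAddHom (MonoidAlgebra R G) Q)) (δ h)
    have : f = f' := by
      apply MonoidAlgebra.addMonoidHom_ext
      intro g r
      show D δ (MonoidAlgebra.single g r * MonoidAlgebra.of R G h) =
        D δ (MonoidAlgebra.single g r) + MonoidAlgebra.single g r • δ h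
      rw [MonoidAlgebra.of_apply, MonoidAlgebra.single_mul_single, mul_one, D_single, D_single, hδ,
        smul_add, smul_smul, MonoidAlgebra.of_apply, MonoidAlgebra.single_mul_single, one_mul,
        mul_one]
    exact DFunLike.congr_fun this y
  rw [mul_sub, mul_one, map_sub, key, add_sub_cancel_left]

end

theorem th : PropRG := by
  classical
  intro R _ W ad hsymm hirr v x hx
  let Q := MonoidAlgebra R (RAAG ad) ⧸ IL R (gen ad '' {w | ad w v})
  let q1 : Q := Submodule.Quotient.mk 1
  let f : W → Equiv.Perm Q := fun w =>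
    if w = v then Equiv.addRight q1 * A R Q (gen ad v) else A R Q (gen ad w)
  have hcomm : ∀ a b : W, ad a b → a ≠ v → b ≠ v → f a * f b = f b * f a := by
    intro a b hab ha hb
    simp only [f, if_neg ha, if_neg hb]
    ext x
    show MonoidAlgebra.of R (RAAG ad) _ • (MonoidAlgebra.of R (RAAG ad) _ • x) =
      MonoidAlgebra.of R (RAAG ad) _ • (MonoidAlgebra.of R (RAAG ad) _ • x)
    rw [of_smul_of_smul, of_smul_of_smul, gen_comm ad a b hab]
  have hcomm' : ∀ b : W, ad b v → f b * f v = f v * f b := by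
    intro b hb
    have hbv : b ≠ v := fun h => hirr v (by rw [h] at hb; exact hb)
    simp only [f, if_neg hbv, if_pos rfl]
    ext x
    show MonoidAlgebra.of R (RAAG ad) _ • (MonoidAlgebra.of R (RAAG ad) _ • x + q1) =
      MonoidAlgebra.of R (RAAG ad) _ • (MonoidAlgebra.of R (RAAG ad) _ • x) + q1
    rw [smul_add, of_smul_of_smul, of_smul_of_smul, gen_comm ad b v hb]
    congr 1
    show (Submodule.Quotient.mk (MonoidAlgebra.of R (RAAG ad) (gen ad b) • (1 : MonoidAlgebra R (RAAG ad))) : Q) =
      Submodule.Quotient.mk 1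
    rw [Submodule.Quotient.eq, smul_eq_mul, mul_one]
    exact Submodule.subset_span ⟨gen ad b, ⟨b, hb, rfl⟩, rfl⟩
  let Ψ : RAAG ad →* Equiv.Perm Q := PresentedGroup.toGroup (f := f) (by
    rintro _ ⟨a, b, hab, rfl⟩
    rw [map_mul, map_mul, map_mul, map_inv, map_inv, FreeGroup.lift_apply_of,
      FreeGroup.lift_apply_of, mul_inv_eq_one, mul_inv_eq_iff_eq_mul]
    by_cases ha : a = v
    · subst ha
      exact (hcomm' b (hsymm _ _ hab)).symm
    · by_cases hb : b = v
      · subst hb
        exact hcomm' a hab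
      · exact hcomm a b hab ha hb)
  have hΨ : ∀ w, Ψ (gen ad w) = f w := fun w => PresentedGroup.toGroup.of _
  have haff := affine (R := R) Ψ (Set.range (gen ad)) (PresentedGroup.closure_range_of (rels ad)) (by
    rintro _ ⟨w, rfl⟩ x
    rw [hΨ]
    by_cases hw : w = v
    · subst hw
      simp only [f, if_pos rfl]
      show MonoidAlgebra.of R (RAAG ad) _ • x + q1 = MonoidAlgebra.of R (RAAG ad) _ • x +
        (MonoidAlgebra.of R (RAAG ad) _ • (0 : Q) + q1)
      rw [smul_zero, zero_add]
    · simp only [f, if_neg hw]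
      show MonoidAlgebra.of R (RAAG ad) _ • x = MonoidAlgebra.of R (RAAG ad) _ • x +
        (MonoidAlgebra.of R (RAAG ad) _ • (0 : Q))
      rw [smul_zero, add_zero])
  let δ : RAAG ad → Q := fun g => Ψ g 0
  have hδ : ∀ g h, δ (g * h) = δ g + MonoidAlgebra.of R (RAAG ad) g • δ h := by
    intro g h
    show Ψ (g * h) 0 = Ψ g 0 + MonoidAlgebra.of R (RAAG ad) g • Ψ h 0
    rw [map_mul, Equiv.Perm.mul_apply, haff g (Ψ h 0), add_comm]
  have hδw : ∀ w, w ≠ v → δ (gen ad w) = 0 := by
    intro w hw
    show Ψ (gen ad w) 0 = 0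
    rw [hΨ]
    simp only [f, if_neg hw]
    show MonoidAlgebra.of R (RAAG ad) _ • (0 : Q) = 0
    exact smul_zero _
  have hδv : δ (gen ad v) = q1 := by
    show Ψ (gen ad v) 0 = q1
    rw [hΨ]
    simp only [f, if_pos rfl]
    show MonoidAlgebra.of R (RAAG ad) _ • (0 : Q) + q1 = q1
    rw [smul_zero, zero_add]
  let N : Submodule (MonoidAlgebra R (RAAG ad)) (MonoidAlgebra R (RAAG ad)) :=
    { carrier := {x | ∀ a, D δ (a * x) = 0}
      zero_mem' := fun a => by rw [mul_zero, map_zero]
      add_mem' := fun {x y} hx hy a => by rw [mul_add, map_add, hx a, hy a, add_zero]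
      smul_mem' := fun c x hx a => by rw [smul_eq_mul, ← mul_assoc]; exact hx _ }
  have hN : IL R (gen ad '' {w | w ≠ v}) ≤ N := by
    unfold IL
    rw [Submodule.span_le]
    rintro _ ⟨_, ⟨w, hw, rfl⟩, rfl⟩
    intro a
    rw [D_mul_sub δ hδ, hδw w hw, smul_zero]
  have h1 := hN hx 1
  rw [one_mul, D_mul_sub δ hδ, hδv] at h1
  have h2 : (Submodule.Quotient.mk (x • (1 : MonoidAlgebra R (RAAG ad))) : Q) = 0 := h1
  rw [smul_eq_mul, mul_one, Submodule.Quotient.mk_eq_zero] at h2
  exact h2

end Pool.Agent.W304.DU.RG
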